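import Pool.Agent.helper47.SC.Spec

/-!
# Row SPC: the domain is strictly pseudoconvex with smooth boundary
-/

open scoped Topology ContDiff
open Set Filter Metric MeasureTheory
open Pool.Agent.helper90.KMMP (levi hess)

namespace Pool.Agent.SC

theorem SPC_leviForm (f : C4 → ℝ) (z v : C4) : leviForm f z v = 1 / 4 * levi f z v := rfl

theorem SPC_mem_iff (s : ℕ → C3) (m : ℕ → ℕ) (h₁ h₂ : C2 → ℂ) (z : C4) :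
    Psi h₁ h₂ z ∈ {q : C4 | (q.1, q.2.1) ∈ XX s m} ↔ z ∈ {q : C4 | (q.1, q.2.1) ∈ XX s m} :=
  Iff.rfl

theorem SPC_fderiv_ne {h₁ h₂ : C2 → ℂ} {z v : C4} (hΦΨ : ∀ z, Phi h₁ h₂ (Psi h₁ h₂ z) = z)
    (hΦ : DifferentiableAt ℂ (Phi h₁ h₂) (Psi h₁ h₂ z))
    (hΨ : DifferentiableAt ℂ (Psi h₁ h₂) z) (hv : v ≠ 0) :
    fderiv ℂ (Psi h₁ h₂) z v ≠ 0 := by
  intro h0
  apply hv
  have h1 : HasFDerivAt (fun y => Phi h₁ h₂ (Psi h₁ h₂ y))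
      ((fderiv ℂ (Phi h₁ h₂) (Psi h₁ h₂ z)).comp (fderiv ℂ (Psi h₁ h₂) z)) z :=
    hΦ.hasFDerivAt.comp z hΨ.hasFDerivAt
  have h2 : (fun y => Phi h₁ h₂ (Psi h₁ h₂ y)) = fun y => y := funext hΦΨ
  rw [h2] at h1
  have h3 := h1.unique (hasFDerivAt_id z)
  have h4 := congrArg (fun L : C4 →L[ℂ] C4 => L v) h3
  simp only [ContinuousLinearMap.comp_apply, h0, map_zero] at h4
  exact h4.symm

theorem SPC (h1 : FRO_stmt) (h2 : VSM_stmt) (h3 : VQQ_stmt) (h4 : GRD_stmt) (h5 : CMP_stmt)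
    (h6 : SHR_stmt) : SPC_stmt := by
  intro s D T m h₁ h₂ hD hM hX hh₁ hh₂ hblow
  obtain ⟨hΨΦ, hΦΨ, h7⟩ := h6 h₁ h₂
  obtain ⟨hX', hΦ, hΨ⟩ := h7 (XX s m) hX hh₁ hh₂
  obtain ⟨hO, hV, hVl⟩ := h2 s D T m hD hM.1
  have hfr := h1 s D T m h₁ h₂ hD hM hX hh₁ hh₂ hblow
  have hU : IsOpen ({q : C4 | (q.1, q.2.1) ∈ XX s m} ∩ Psi h₁ h₂ ⁻¹' OO T) :=
    hΨ.continuousOn.isOpen_inter_preimage hX' hO
  have hΨR : ContDiffOn ℝ ∞ (Psi h₁ h₂) {q : C4 | (q.1, q.2.1) ∈ XX s m} := hΨ.restrict_scalars ℝ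
  have hΦR : ContDiffOn ℝ ∞ (Phi h₁ h₂) {q : C4 | (q.1, q.2.1) ∈ XX s m} := hΦ.restrict_scalars ℝ
  have hρ : ContDiffOn ℝ ∞ (fun z => VV s m (Psi h₁ h₂ z))
      ({q : C4 | (q.1, q.2.1) ∈ XX s m} ∩ Psi h₁ h₂ ⁻¹' OO T) :=
    hV.comp (hΨR.mono inter_subset_left) inter_subset_right
  refine ⟨{q : C4 | (q.1, q.2.1) ∈ XX s m} ∩ Psi h₁ h₂ ⁻¹' OO T,
    fun z => VV s m (Psi h₁ h₂ z), hU, ?_, hρ, ?_, ?_, ?_⟩
  · intro z hz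
    exact ⟨(hfr z hz).1, (hfr z hz).2.1⟩
  · intro z hz v hv
    have hz1 : {q : C4 | (q.1, q.2.1) ∈ XX s m} ∈ 𝓝 z := hX'.mem_nhds hz.1
    have hz2 : {q : C4 | (q.1, q.2.1) ∈ XX s m} ∈ 𝓝 (Psi h₁ h₂ z) := hX'.mem_nhds hz.1
    have hc1 : ContDiffAt ℝ 2 (VV s m) (Psi h₁ h₂ z) :=
      (hV.contDiffAt (hO.mem_nhds hz.2)).of_le (WithTop.coe_le_coe.2 le_top)
    have hc2 : ContDiffAt ℂ 2 (Psi h₁ h₂) z := (hΨ.contDiffAt hz1).of_le (WithTop.coe_le_coe.2 le_top)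
    have hc3 : ContDiffAt ℂ 2 (Phi h₁ h₂) (Psi h₁ h₂ z) :=
      (hΦ.contDiffAt hz2).of_le (WithTop.coe_le_coe.2 le_top)
    rw [SPC_leviForm, h5 C4 C4 (VV s m) (Psi h₁ h₂) z hc1 hc2 v]
    have hne := SPC_fderiv_ne hΦΨ (hc3.differentiableAt (by norm_num))
      (hc2.differentiableAt (by norm_num)) hv
    have := hVl (Psi h₁ h₂ z) hz.2 _ hne
    linarith
  · ext z
    constructor
    · rintro ⟨hz1, hz2⟩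
      exact ⟨hz2, (h3 s D T m hD hM.1 (Psi h₁ h₂ z) hz2.2).2 hz1.2.2⟩
    · rintro ⟨hz1, hz2⟩
      exact ⟨⟨hz1.1, hz1.2.1, (h3 s D T m hD hM.1 (Psi h₁ h₂ z) hz1.2).1 hz2⟩, hz1⟩
  · intro z hz h0
    obtain ⟨hz1, hz2, hz3⟩ := hfr z hz
    apply h4 s D T m hD hM.1 (Psi h₁ h₂ z) hz2 hz3
    have hzz : z ∈ {q : C4 | (q.1, q.2.1) ∈ XX s m} ∩ Psi h₁ h₂ ⁻¹' OO T := ⟨hz1, hz2⟩
    have hz4 : {q : C4 | (q.1, q.2.1) ∈ XX s m} ∈ 𝓝 (Psi h₁ h₂ z) := hX'.mem_nhds hz1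
    have hdρ : DifferentiableAt ℝ (fun z => VV s m (Psi h₁ h₂ z)) z :=
      (hρ.contDiffAt (hU.mem_nhds hzz)).differentiableAt (by simp)
    have hdΦ : DifferentiableAt ℝ (Phi h₁ h₂) (Psi h₁ h₂ z) :=
      (hΦR.contDiffAt hz4).differentiableAt (by simp)
    have hd1 : HasFDerivAt (fun z => VV s m (Psi h₁ h₂ z)) (0 : C4 →L[ℝ] ℝ)
        (Phi h₁ h₂ (Psi h₁ h₂ z)) := by
      rw [hΦΨ z, ← h0]
      exact hdρ.hasFDerivAt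
    have hd2 := hd1.comp (Psi h₁ h₂ z) hdΦ.hasFDerivAt
    have he : ((fun z => VV s m (Psi h₁ h₂ z)) ∘ Phi h₁ h₂) = VV s m := by
      funext q
      simp only [Function.comp, hΨΦ q]
    rw [he, ContinuousLinearMap.zero_comp] at hd2
    exact hd2.fderiv

end Pool.Agent.SC
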